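import Pool.Agent.MP_d32a63_an.H58.Spec
import Pool.Agent.MP_d32a63_an.H4.TC

/-! The hull lemma, the two constants estimate and the three link estimates. -/

open Set Metric
open Complex (I)
open Pool.Agent.MP_d32a63_an.H58

namespace Pool.Agent.MP_d32a63_an.H15

noncomputable section

/-! ### Whitney fields -/

theorem wh_mono {K K' s s' : ℝ} {g μ : ℂ → ℂ} {A A' : Set ℂ} (H : Wh K s g μ A) (hK0 : 0 ≤ K)
    (hK : K ≤ K') (hs0 : 0 ≤ s) (hs : s ≤ s') (hA : A' ⊆ A) : Wh K' s' g μ A' where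
  bg x hx := (H.bg x (hA hx)).trans hK
  bm x hx := (H.bm x (hA hx)).trans hK
  lip x hx y hy := (H.lip x (hA hx) y (hA hy)).trans (by
    have := norm_nonneg (y - x)
    gcongr
    exact hK0.trans hK)
  tay x hx y hy := (H.tay x (hA hx) y (hA hy)).trans (by
    have := norm_nonneg (y - x)
    gcongr
    exact hK0.trans hK)

theorem wh_sub {K s : ℝ} {g μ g' μ' : ℂ → ℂ} {A : Set ℂ} (H : Wh K s g μ A)
    (H' : Wh K s g' μ' A) : Wh (2 * K) s (fun x => g x - g' x) (fun x => μ x - μ' x) A where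
  bg x hx := (norm_sub_le _ _).trans (by linarith [H.bg x hx, H'.bg x hx])
  bm x hx := (norm_sub_le _ _).trans (by linarith [H.bm x hx, H'.bm x hx])
  lip x hx y hy := by
    have e : μ y - μ' y - (μ x - μ' x) = (μ y - μ x) - (μ' y - μ' x) := by ring
    rw [e]
    exact (norm_sub_le _ _).trans (by linarith [H.lip x hx y hy, H'.lip x hx y hy])
  tay x hx y hy := by
    have e : g y - g' y - (g x - g' x) - (μ x - μ' x) * (y - x) =
        (g y - g x - μ x * (y - x)) - (g' y - g' x - μ' x * (y - x)) := by ring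
    rw [e]
    exact (norm_sub_le _ _).trans (by linarith [H.tay x hx y hy, H'.tay x hx y hy])

theorem wh_const {K L s : ℝ} {g μ : ℂ → ℂ} {A : Set ℂ} (H : Wh K s g μ A) {c0 : ℂ}
    (hs : 0 ≤ s) (hc : ‖c0‖ ≤ L) : Wh (K + L) s (fun x => g x - c0) μ A where
  bg x hx := (norm_sub_le _ _).trans (by linarith [H.bg x hx])
  bm x hx := by linarith [H.bm x hx, norm_nonneg c0]
  lip x hx y hy := (H.lip x hx y hy).trans (by
    have := norm_nonneg (y - x)
    have := norm_nonneg c0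
    gcongr
    linarith)
  tay x hx y hy := by
    have e : g y - c0 - (g x - c0) - μ x * (y - x) = g y - g x - μ x * (y - x) := by ring
    rw [e]
    refine (H.tay x hx y hy).trans ?_
    have := norm_nonneg c0
    gcongr
    linarith

theorem wh_aff {K s : ℝ} {g μ : ℂ → ℂ} {A R : Set ℂ} (H : Wh K s g μ A) (hK : 0 ≤ K) (hs : 0 ≤ s)
    {p e : ℂ} (he : ‖e‖ ≤ 5 / 4) (hR : ∀ ξ ∈ R, p + e * ξ ∈ A) :
    Wh (2 * K) s (fun ξ => g (p + e * ξ)) (fun ξ => e * μ (p + e * ξ)) R := by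
  have key : ∀ x y : ℂ, ‖p + e * y - (p + e * x)‖ + s ≤ 5 / 4 * (‖y - x‖ + s) := fun x y => by
    have e1 : p + e * y - (p + e * x) = e * (y - x) := by ring
    rw [e1, norm_mul]
    have := mul_le_mul_of_nonneg_right he (norm_nonneg (y - x))
    linarith
  refine ⟨fun x hx => by linarith [H.bg _ (hR x hx)], fun x hx => ?_, fun x hx y hy => ?_,
    fun x hx y hy => ?_⟩
  · rw [norm_mul]
    have := mul_le_mul he (H.bm _ (hR x hx)) (norm_nonneg _) (by norm_num)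
    linarith
  · rw [← mul_sub, norm_mul]
    have h1 := (H.lip _ (hR x hx) _ (hR y hy)).trans (mul_le_mul_of_nonneg_left (key x y) hK)
    have h2 := mul_le_mul he h1 (norm_nonneg _) (by norm_num)
    have h3 : 0 ≤ K * (‖y - x‖ + s) := by positivity
    linarith
  · have e1 : g (p + e * y) - g (p + e * x) - e * μ (p + e * x) * (y - x) =
        g (p + e * y) - g (p + e * x) - μ (p + e * x) * (p + e * y - (p + e * x)) := by ring
    rw [e1]
    refine (H.tay _ (hR x hx) _ (hR y hy)).trans ?_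
    have h0 : 0 ≤ ‖p + e * y - (p + e * x)‖ + s := by positivity
    have h1 := pow_le_pow_left₀ h0 (key x y) 2
    have h2 := mul_le_mul_of_nonneg_left h1 hK
    have h3 : 0 ≤ K * (‖y - x‖ + s) ^ 2 := by positivity
    nlinarith

theorem wh_lip {K s : ℝ} {g μ : ℂ → ℂ} {A : Set ℂ} (H : Wh K s g μ A) (hK : 0 ≤ K) (hs : 0 ≤ s)
    {x y : ℂ} (hx : x ∈ A) (hy : y ∈ A) (h1 : ‖y - x‖ + s ≤ 1) :
    ‖g y‖ ≤ ‖g x‖ + 2 * K * (‖y - x‖ + s) := by
  have e : g y = (g y - g x - μ x * (y - x)) + g x + μ x * (y - x) := by ring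
  have a1 := H.tay x hx y hy
  have a2 : ‖μ x * (y - x)‖ ≤ K * ‖y - x‖ := by
    rw [norm_mul]; exact mul_le_mul_of_nonneg_right (H.bm x hx) (norm_nonneg _)
  have h0 : 0 ≤ ‖y - x‖ + s := by positivity
  have a3 : K * (‖y - x‖ + s) ^ 2 ≤ K * (‖y - x‖ + s) :=
    mul_le_mul_of_nonneg_left (by nlinarith) hK
  have a4 := norm_add₃_le (a := g y - g x - μ x * (y - x)) (b := g x) (c := μ x * (y - x))
  rw [← e] at a4
  have a5 : 0 ≤ K * s := by positivity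
  nlinarith

/-! ### Two constants -/

theorem tc : H58.TC := by
  intro a b y1 y2 ha h1 h12 h2
  obtain ⟨α, hα, C, hC, H⟩ := H4.tc' ha h1 h12 h2
  refine ⟨α, max C 1, hα, lt_max_of_lt_left hC, fun K s g μ hK hs W hb w hw => ?_⟩
  rw [Complex.mem_reProdIm] at hw
  have hR : ∀ z ∈ H4.Rect (-a) a 0 b, z ∈ Icc (-a) a ×ℂ Icc 0 b := fun z hz =>
    Complex.mem_reProdIm.2 ⟨⟨hz.1, hz.2.1⟩, hz.2.2.1, hz.2.2.2⟩
  rcases le_or_gt s 1 with hs1 | hs1
  · have := H g μ K s hs hs1 hK (fun x hx y hy => W.tay x (hR x hx) y (hR y hy))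
      (fun x hx => W.bg x (hR x hx)) (fun x hx => hb x (abs_le.1 hx)) w
      ⟨hw.1.1, hw.1.2, hw.2.1, hw.2.2⟩
    refine this.trans ?_
    have := Real.rpow_nonneg hs.le α
    gcongr
    exact le_max_left _ _
  · have h3 := W.bg w (Complex.mem_reProdIm.2
      ⟨⟨by linarith [hw.1.1], by linarith [hw.1.2]⟩, by linarith [hw.2.1], by linarith [hw.2.2]⟩)
    have h4 : 1 ≤ s ^ α := Real.one_le_rpow hs1.le hα.le
    have h5 : K ≤ max C 1 * K := le_mul_of_one_le_left hK (le_max_right _ _)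
    have h6 : max C 1 * K ≤ max C 1 * K * s ^ α :=
      le_mul_of_one_le_right (hK.trans h5) h4
    linarith

/-- The two constants estimate on a moved rectangle. -/
theorem tcm (T : H58.TC) {a b y1 y2 : ℝ} (ha : 0 < a) (h1 : 0 < y1) (h12 : y1 ≤ y2)
    (h2 : y2 < b) : ∃ α Cc : ℝ, 0 < α ∧ 0 < Cc ∧ ∀ (K s : ℝ) (g μ : ℂ → ℂ) (A : Set ℂ) (p e : ℂ),
      0 ≤ K → 0 < s → ‖e‖ ≤ 5 / 4 → Wh K s g μ A →
      (∀ ξ : ℂ, |ξ.re| ≤ a → 0 ≤ ξ.im → ξ.im ≤ b → p + e * ξ ∈ A) →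
      (∀ t : ℝ, |t| ≤ a → ‖g (p + e * t)‖ ≤ K * s) →
      ∀ ξ : ℂ, |ξ.re| ≤ a / 2 → y1 ≤ ξ.im → ξ.im ≤ y2 → ‖g (p + e * ξ)‖ ≤ Cc * K * s ^ α := by
  obtain ⟨α, Cc, hα, hC, H⟩ := T a b y1 y2 ha h1 h12 h2
  refine ⟨α, 2 * Cc, hα, by positivity, fun K s g μ A p e hK hs he W hR hb ξ a1 a2 a3 => ?_⟩
  have W' := wh_aff (R := Icc (-a) a ×ℂ Icc 0 b) W hK hs.le he fun z hz => by
    rw [Complex.mem_reProdIm] at hz
    exact hR z (abs_le.2 hz.1) hz.2.1 hz.2.2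
  have := H (2 * K) s _ _ (by positivity) hs W' (fun t ht => by
      have := hb t (abs_le.2 ht)
      have h3 : 0 ≤ K * s := by positivity
      show ‖g (p + e * t)‖ ≤ _
      linarith) ξ (Complex.mem_reProdIm.2 ⟨abs_le.1 a1, a2, a3⟩)
  calc _ ≤ Cc * (2 * K) * s ^ α := this
    _ = _ := by ring

/-- The qualitative form. -/
theorem tcq (T : H58.TC) {a b y1 y2 K η : ℝ} (ha : 0 < a) (h1 : 0 < y1) (h12 : y1 ≤ y2)
    (h2 : y2 < b) (hK : 0 < K) (hη : 0 < η) : ∃ δ : ℝ, 0 < δ ∧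
      ∀ (s : ℝ) (g μ : ℂ → ℂ) (A : Set ℂ) (p e : ℂ), 0 ≤ s → s ≤ δ → ‖e‖ ≤ 5 / 4 → Wh K s g μ A →
      (∀ ξ : ℂ, |ξ.re| ≤ a → 0 ≤ ξ.im → ξ.im ≤ b → p + e * ξ ∈ A) →
      (∀ t : ℝ, |t| ≤ a → ‖g (p + e * t)‖ ≤ δ) →
      ∀ ξ : ℂ, |ξ.re| ≤ a / 2 → y1 ≤ ξ.im → ξ.im ≤ y2 → ‖g (p + e * ξ)‖ ≤ η := by
  obtain ⟨α, Cc, hα, hC, H⟩ := tcm T ha h1 h12 h2
  have hq : 0 < η / (Cc * K) := by positivity
  obtain ⟨d, hd, hdα⟩ : ∃ d : ℝ, 0 < d ∧ d ^ α = η / (Cc * K) :=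
    ⟨(η / (Cc * K)) ^ α⁻¹, Real.rpow_pos_of_pos hq _, Real.rpow_inv_rpow hq.le hα.ne'⟩
  refine ⟨min d (K * d), lt_min hd (by positivity),
    fun s g μ A p e hs hsd he W hR hb ξ a1 a2 a3 => ?_⟩
  have := H K d g μ A p e hK.le hd he
    (wh_mono W hK.le le_rfl hs (hsd.trans (min_le_left _ _)) subset_rfl) hR
    (fun t ht => (hb t ht).trans (min_le_right _ _)) ξ a1 a2 a3
  rw [hdα] at this
  refine this.trans (le_of_eq ?_)
  field_simp

/-! ### Geometry of the triangle -/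

theorem sq3_lo : (1732 / 1000 : ℝ) ≤ Real.sqrt 3 := Real.le_sqrt_of_sq_le (by norm_num)

theorem sq3_hi : Real.sqrt 3 ≤ (17321 / 10000 : ℝ) := Real.sqrt_le_iff.2 (by norm_num)

theorem actr_eq : actr = (((Real.sqrt 3)⁻¹ : ℝ) : ℂ) * I := by
  unfold actr; push_cast; ring

theorem inv3 : (577 / 1000 : ℝ) ≤ (Real.sqrt 3)⁻¹ ∧ (Real.sqrt 3)⁻¹ ≤ (5774 / 10000 : ℝ) := by
  have h1 := sq3_lo
  have h2 := sq3_hi
  have h0 : 0 < Real.sqrt 3 := by linarith
  constructor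
  · rw [le_inv_comm₀ (by norm_num) h0]; linarith
  · rw [inv_le_comm₀ h0 (by norm_num)]; linarith

theorem actr_re : actr.re = 0 := by rw [actr_eq]; simp

theorem actr_im : actr.im = (Real.sqrt 3)⁻¹ := by
  rw [actr_eq, Complex.mul_I_im, Complex.ofReal_re]

theorem actr_norm : ‖actr‖ ≤ 3 / 5 := by
  rw [actr_eq, norm_mul, Complex.norm_I, Complex.norm_real, Real.norm_eq_abs,
    abs_of_nonneg (by linarith [inv3.1])]
  linarith [inv3.2]

theorem geo (B : BASIC) {τ : ℝ} {w : ℂ} {A : ℤ} {a b c : ℂ} (T : Tri τ w A a b c) :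
    999 / 1000 * τ ≤ ‖(b - a) / 2‖ ∧ ‖(b - a) / 2‖ ≤ 1001 / 1000 * τ ∧
    ‖c - (a + b) / 2 - (Real.sqrt 3 : ℂ) * I * ((b - a) / 2)‖ ≤ 15 / 4000 * τ ∧
    ‖w + τ * actr - (a + b) / 2 - actr * ((b - a) / 2)‖ ≤ 8 / 5000 * τ := by
  obtain ⟨t0, t1, ha, hb, hc⟩ := T
  set ea := a - (w + τ * acol A) with hea
  set eb := b - (w + τ * acol (A + 1)) with heb
  set ec := c - (w + τ * acol (A + 2)) with hec
  have hm : ‖(ea + eb) / 2‖ ≤ τ / 1000 := by
    rw [norm_div, Complex.norm_two]; linarith [norm_add_le ea eb]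
  have hd : ‖(eb - ea) / 2‖ ≤ τ / 1000 := by
    rw [norm_div, Complex.norm_two]; linarith [norm_sub_le eb ea]
  have h0 : ‖(τ : ℂ) * ((acol (A + 1) - acol A) / 2)‖ = τ := by
    rw [norm_mul, norm_div, B.ac3 _ _ (by omega), Complex.norm_two, Complex.norm_real,
      Real.norm_eq_abs, abs_of_pos t0]
    ring
  have e1 : (b - a) / 2 = (τ : ℂ) * ((acol (A + 1) - acol A) / 2) + (eb - ea) / 2 := by
    rw [hea, heb]; ring
  have e2 : (τ : ℂ) * ((acol (A + 1) - acol A) / 2) = (b - a) / 2 - (eb - ea) / 2 := by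
    rw [e1]; ring
  refine ⟨?_, ?_, ?_, ?_⟩
  · have := norm_sub_le ((b - a) / 2) ((eb - ea) / 2)
    rw [← e2, h0] at this
    linarith
  · have := norm_add_le ((τ : ℂ) * ((acol (A + 1) - acol A) / 2)) ((eb - ea) / 2)
    rw [← e1, h0] at this
    linarith
  · have e3 : c - (a + b) / 2 - (Real.sqrt 3 : ℂ) * I * ((b - a) / 2) =
        ec - (ea + eb) / 2 - (Real.sqrt 3 : ℂ) * I * ((eb - ea) / 2) := by
      rw [hea, heb, hec]; linear_combination (τ : ℂ) * B.ac4 A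
    have h3 : ‖(Real.sqrt 3 : ℂ) * I * ((eb - ea) / 2)‖ ≤ 7 / 4 * (τ / 1000) := by
      rw [norm_mul, norm_mul, Complex.norm_I, Complex.norm_real, Real.norm_eq_abs,
        abs_of_nonneg (Real.sqrt_nonneg _), mul_one]
      exact mul_le_mul (by linarith [sq3_hi]) hd (norm_nonneg _) (by norm_num)
    rw [e3]
    have h4 := norm_sub_le (ec - (ea + eb) / 2) ((Real.sqrt 3 : ℂ) * I * ((eb - ea) / 2))
    have h5 := norm_sub_le ec ((ea + eb) / 2)
    linarith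
  · have e3 : w + τ * actr - (a + b) / 2 - actr * ((b - a) / 2) =
        -((ea + eb) / 2 + actr * ((eb - ea) / 2)) := by
      rw [hea, heb]; linear_combination (τ : ℂ) * B.ac5 A
    have h3 : ‖actr * ((eb - ea) / 2)‖ ≤ 3 / 5 * (τ / 1000) := by
      rw [norm_mul]
      exact mul_le_mul actr_norm hd (norm_nonneg _) (by norm_num)
    rw [e3, norm_neg]
    have h4 := norm_add_le ((ea + eb) / 2) (actr * ((eb - ea) / 2))
    linarith

/-- The normalised region inside every admissible triangle. -/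
def TT : Set ℂ := {ξ | 0 ≤ ξ.im ∧ |ξ.re| + 3 / 5 * ξ.im ≤ 1}

theorem mem_hull {m h ζ ξ : ℂ} (hc : ‖ζ - (Real.sqrt 3 : ℂ) * I‖ ≤ 1 / 250) (hξ : ξ ∈ TT) :
    m + h * ξ ∈ H58.hull (m - h) (m + h) (m + h * ζ) := by
  obtain ⟨hy, hx⟩ := hξ
  have a1 := (Complex.abs_re_le_norm _).trans hc
  have a2 := (Complex.abs_im_le_norm _).trans hc
  simp only [Complex.sub_re, Complex.sub_im, Complex.mul_I_re, Complex.mul_I_im,
    Complex.ofReal_im, Complex.ofReal_re, neg_zero, sub_zero] at a1 a2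
  rw [abs_le] at a1 a2
  have hY : 1728 / 1000 ≤ ζ.im := by linarith [sq3_lo, a2.1]
  obtain ⟨s, hs0, hs⟩ : ∃ s : ℝ, 0 ≤ s ∧ s * ζ.im = ξ.im :=
    ⟨ξ.im / ζ.im, by positivity, div_mul_cancel₀ _ (by linarith : (0 : ℝ) < ζ.im).ne'⟩
  have b1 : s * (1728 / 1000) ≤ ξ.im := hs ▸ mul_le_mul_of_nonneg_left hY hs0
  have b2 : s * ζ.re ≤ s * (1 / 250) := mul_le_mul_of_nonneg_left a1.2 hs0
  have b3 : s * (-(1 / 250)) ≤ s * ζ.re := mul_le_mul_of_nonneg_left a1.1 hs0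
  have b4 := le_abs_self ξ.re
  have b5 := neg_abs_le ξ.re
  have key := (convex_convexHull ℝ ({m - h, m + h, m + h * ζ} : Set ℂ)).sum_mem
    (t := Finset.univ) (w := ![(1 - s - (ξ.re - s * ζ.re)) / 2, (1 - s + (ξ.re - s * ζ.re)) / 2, s])
    (z := ![m - h, m + h, m + h * ζ])
    (fun i _ => by fin_cases i <;> simp <;> linarith)
    (by simp [Fin.sum_univ_three]; ring)
    (fun i _ => subset_convexHull ℝ _ (by fin_cases i <;> simp))
  have e : ξ = ((ξ.re - s * ζ.re : ℝ) : ℂ) + (s : ℂ) * ζ := by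
    apply Complex.ext <;> simp [hs]
  unfold H58.hull
  convert key using 1
  simp only [Fin.sum_univ_three, Matrix.cons_val_zero, Matrix.cons_val_one, Matrix.cons_val_two,
    Matrix.head_cons, Matrix.tail_cons, Complex.real_smul]
  rw [e]
  simp only [Complex.add_re, Complex.ofReal_re, Complex.mul_re, Complex.ofReal_im]
  push_cast
  ring

theorem sub_hull (B : BASIC) {τ : ℝ} {w : ℂ} {A : ℤ} {a b c : ℂ} (T : Tri τ w A a b c) :
    ∀ ξ ∈ TT, (a + b) / 2 + (b - a) / 2 * ξ ∈ H58.hull a b c := by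
  intro ξ hξ
  obtain ⟨g1, -, g3, -⟩ := geo B T
  have t0 := T.t0
  have hp : 0 < ‖(b - a) / 2‖ := by linarith
  have hn : (b - a) / 2 ≠ 0 := norm_pos_iff.1 hp
  have := mem_hull (m := (a + b) / 2) (h := (b - a) / 2)
    (ζ := (c - (a + b) / 2) / ((b - a) / 2)) (ξ := ξ) (by
      rw [div_sub' hn, norm_div, div_le_iff₀ hp, mul_comm ((b - a) / 2)]
      linarith) hξ
  rwa [show (a + b) / 2 - (b - a) / 2 = a by ring, show (a + b) / 2 + (b - a) / 2 = b by ring,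
    mul_div_cancel₀ _ hn, add_sub_cancel] at this

theorem near (B : BASIC) {τ : ℝ} {w : ℂ} {A : ℤ} {a b c : ℂ} (T : Tri τ w A a b c) {r : ℝ}
    (hr : r ≤ 1 / 10) {u : ℂ} (hu : ‖u - (w + τ * actr)‖ ≤ r * τ) :
    ∃ ξ : ℂ, u = (a + b) / 2 + (b - a) / 2 * ξ ∧ |ξ.re| ≤ r + 1 / 500 ∧
      |ξ.im - 577 / 1000| ≤ r + 3 / 1000 := by
  obtain ⟨g1, -, -, g4⟩ := geo B T
  have t0 := T.t0
  have hp : 0 < ‖(b - a) / 2‖ := by linarith
  have hn : (b - a) / 2 ≠ 0 := norm_pos_iff.1 hp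
  have hr0 : 0 ≤ r := by
    by_contra h
    have := mul_neg_of_neg_of_pos (not_le.1 h) t0
    linarith [norm_nonneg (u - (w + τ * actr))]
  have k : ‖(u - (a + b) / 2) / ((b - a) / 2) - actr‖ ≤ r + 1 / 500 := by
    rw [div_sub' hn, norm_div, div_le_iff₀ hp]
    have e : u - (a + b) / 2 - (b - a) / 2 * actr =
        (u - (w + τ * actr)) + (w + τ * actr - (a + b) / 2 - actr * ((b - a) / 2)) := by ring
    rw [e]
    refine (norm_add_le _ _).trans ?_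
    have := mul_le_mul_of_nonneg_left g1 (by linarith : 0 ≤ r + 1 / 500)
    nlinarith
  refine ⟨(u - (a + b) / 2) / ((b - a) / 2), by rw [mul_div_cancel₀ _ hn, add_sub_cancel], ?_, ?_⟩
  · have := (Complex.abs_re_le_norm _).trans k
    rwa [Complex.sub_re, actr_re, sub_zero] at this
  · have := (Complex.abs_im_le_norm _).trans k
    rw [Complex.sub_im, actr_im, abs_le] at this
    rw [abs_le]
    constructor <;> linarith [inv3.1, inv3.2, this.1, this.2]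

theorem back (B : BASIC) {τ : ℝ} {w : ℂ} {A : ℤ} {a b c : ℂ} (T : Tri τ w A a b c) {t : ℝ}
    (ht : |t| ≤ 1 / 1000) :
    (a + b) / 2 + (b - a) / 2 * (((577 / 1000 : ℝ) : ℂ) * I + -1 * t) ∈
      ball (w + τ * actr) (τ / 200) := by
  obtain ⟨-, g2, -, g4⟩ := geo B T
  have t0 := T.t0
  have e : (a + b) / 2 + (b - a) / 2 * (((577 / 1000 : ℝ) : ℂ) * I + -1 * t) - (w + τ * actr) =
      (b - a) / 2 * ((((577 / 1000 : ℝ) - (Real.sqrt 3)⁻¹ : ℝ) : ℂ) * I - t) -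
        (w + τ * actr - (a + b) / 2 - actr * ((b - a) / 2)) := by
    rw [actr_eq]; push_cast; ring
  have k : ‖((((577 / 1000 : ℝ) - (Real.sqrt 3)⁻¹ : ℝ) : ℂ) * I - t)‖ ≤ 1 / 500 := by
    refine (norm_sub_le _ _).trans ?_
    rw [norm_mul, Complex.norm_I, Complex.norm_real, Complex.norm_real, Real.norm_eq_abs,
      Real.norm_eq_abs, abs_of_nonpos (by linarith [inv3.1])]
    linarith [inv3.2]
  rw [mem_ball, dist_eq_norm, e]
  refine (norm_sub_le _ _).trans_lt ?_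
  rw [norm_mul]
  have := mul_le_mul g2 k (norm_nonneg _) (by positivity)
  linarith

theorem seg_mem (a b : ℂ) {t : ℝ} (ht : |t| ≤ 1) :
    (a + b) / 2 + (b - a) / 2 * (t : ℂ) ∈ segment ℝ a b := by
  rw [abs_le] at ht
  refine ⟨(1 - t) / 2, (1 + t) / 2, by linarith [ht.2], by linarith [ht.1], by ring, ?_⟩
  simp only [Complex.real_smul]
  push_cast
  ring

theorem hnorm (B : BASIC) {τ : ℝ} {w : ℂ} {A : ℤ} {a b c : ℂ} (T : Tri τ w A a b c) :
    ‖(b - a) / 2‖ ≤ 5 / 4 := by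
  linarith [(geo B T).2.1, T.t1]

theorem hull : H58.R_HULL := by
  intro B τ w A a b c T u hu
  rw [mem_ball, dist_eq_norm] at hu
  obtain ⟨ξ, rfl, h1, h2⟩ := near B T (r := 1 / 20) (by norm_num) (u := u) (by linarith)
  rw [abs_le] at h2
  exact sub_hull B T ξ ⟨by linarith [h2.1], by linarith [h2.2]⟩

/-! ### The links -/

theorem link1 (B : BASIC) (T : H58.TC) : ∃ α Cc : ℝ, 0 < α ∧ 0 < Cc ∧ LINK1 α Cc := by
  obtain ⟨α, Cc, hα, hC, H⟩ := tcm T (a := 1 / 2) (b := 4 / 5) (y1 := 1 / 10) (y2 := 3 / 4)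
    (by norm_num) (by norm_num) (by norm_num) (by norm_num)
  refine ⟨α, 2 * Cc, hα, by positivity, ?_⟩
  intro τ K σ w A a b c c' g μ g' μ' hK hσ T1 T2 W W' hb u hu
  rw [mem_ball, dist_eq_norm] at hu
  obtain ⟨ξ, rfl, h1, h2⟩ := near B T1 (r := 1 / 40) (by norm_num) (u := u) (by linarith)
  rw [abs_le] at h2
  have W2 := wh_sub (wh_mono W hK le_rfl hσ.le le_rfl (inter_subset_left (t := H58.hull a b c')))
    (wh_mono W' hK le_rfl hσ.le le_rfl inter_subset_right)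
  have := H (2 * K) σ _ _ _ ((a + b) / 2) ((b - a) / 2) (by positivity) hσ (hnorm B T1) W2
    (fun z z1 z2 z3 => ⟨sub_hull B T1 z ⟨z2, by linarith⟩, sub_hull B T2 z ⟨z2, by linarith⟩⟩)
    (fun t ht => by
      have := hb _ (seg_mem a b (t := t) (by linarith))
      have h3 : 0 ≤ K * σ := by positivity
      linarith) ξ (by linarith) (by linarith [h2.1]) (by linarith [h2.2])
  refine this.trans ?_
  have h3 : σ ^ α ≤ (σ / τ) ^ α :=
    Real.rpow_le_rpow hσ.le (le_div_self hσ.le T1.t0 T1.t1) hα.le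
  calc Cc * (2 * K) * σ ^ α = 2 * Cc * K * σ ^ α := by ring
    _ ≤ _ := by gcongr

theorem link2 (B : BASIC) (T : H58.TC) : LINK2 := by
  intro τ K a0 η hτ hK ha0 hη
  obtain ⟨a1, p1, p2, p3⟩ : ∃ a1 : ℝ, 0 < a1 ∧ a1 ≤ a0 / 2 ∧ a1 ≤ 1 / 10 :=
    ⟨min (a0 / 2) (1 / 10), lt_min (by linarith) (by norm_num), min_le_left _ _, min_le_right _ _⟩
  obtain ⟨δ2, hδ2, H2⟩ := tcq T (a := 1 / 10) (b := 1 / 5) (y1 := a1 / 2) (y2 := 1 / 10)
    (K := 2 * (2 * K)) (η := η) (by norm_num) (by linarith) (by linarith) (by norm_num)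
    (by positivity) hη
  obtain ⟨δ1, hδ1, H1⟩ := tcq T (a := a1) (b := 4 / 5) (y1 := 1 / 10) (y2 := 3 / 4)
    (K := 2 * (2 * K)) (η := min η δ2) p1 (by norm_num) (by norm_num) (by norm_num)
    (by positivity) (lt_min hη hδ2)
  refine ⟨min (min δ1 δ2) (δ1 / K), lt_min (lt_min hδ1 hδ2) (by positivity), ?_⟩
  intro σ w A a b c c' g μ g' μ' hσ hs T1 T2 W W' hb u hu
  have s1 : σ ≤ δ1 := hs.trans ((min_le_left _ _).trans (min_le_left _ _))
  have s2 : σ ≤ δ2 := hs.trans ((min_le_left _ _).trans (min_le_right _ _))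
  have s3 : K * σ ≤ δ1 := by
    have := hs.trans (min_le_right _ _)
    rwa [le_div_iff₀' hK] at this
  rw [mem_ball, dist_eq_norm] at hu
  obtain ⟨ξ, rfl, h1, h2⟩ := near B T1 (r := 1 / 40) (by norm_num) (u := u) (by linarith)
  rw [abs_le] at h1 h2
  have W2 := wh_sub (wh_mono W hK.le le_rfl hσ.le le_rfl
    (inter_subset_left (t := H58.hull a b c')))
    (wh_mono W' hK.le le_rfl hσ.le le_rfl inter_subset_right)
  have W3 := wh_aff (R := TT) W2 (by positivity) hσ.le (hnorm B T1)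
    fun z hz => ⟨sub_hull B T1 z hz, sub_hull B T2 z hz⟩
  have k1 := H1 σ _ _ TT 0 1 hσ.le s1 (by norm_num) W3
    (fun z z1 z2 z3 => by
      rw [zero_add, one_mul]; exact ⟨z2, by linarith⟩)
    (fun t ht => by
      rw [zero_add, one_mul]
      refine (hb _ (seg_mem a b (t := t) (by linarith)) ?_).trans s3
      rw [add_sub_cancel_left, norm_mul, Complex.norm_real, Real.norm_eq_abs]
      have := mul_le_mul (geo B T1).2.1 (ht.trans p2) (abs_nonneg _) (by positivity)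
      have h3 : 0 ≤ a0 * τ := by positivity
      linarith)
  simp only [zero_add, one_mul] at k1
  have k2 : ∀ e : ℝ, (e = 1 ∨ e = -1) → ∀ z : ℂ, |z.re| ≤ 1 / 10 / 2 → a1 / 2 ≤ z.im →
      z.im ≤ 1 / 10 → ‖g ((a + b) / 2 + (b - a) / 2 * (((577 / 1000 : ℝ) : ℂ) * I + e * I * z)) -
        g' ((a + b) / 2 + (b - a) / 2 * (((577 / 1000 : ℝ) : ℂ) * I + e * I * z))‖ ≤ η := by
    intro e he
    refine H2 σ _ _ TT (((577 / 1000 : ℝ) : ℂ) * I) (e * I) hσ.le s2 ?_ W3 ?_ ?_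
    · rcases he with rfl | rfl <;> simp <;> norm_num
    · intro z z1 z2 z3
      rw [abs_le] at z1
      rcases he with rfl | rfl
      · refine ⟨?_, ?_⟩ <;> simp
        · linarith [z1.1]
        · rw [abs_of_nonneg z2]; linarith [z1.2]
      · refine ⟨?_, ?_⟩ <;> simp
        · linarith [z1.2]
        · rw [abs_of_nonneg z2]; linarith [z1.1]
    · intro t ht
      rw [abs_le] at ht
      refine (k1 _ ?_ ?_ ?_).trans (min_le_right _ _)
      · simp; linarith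
      · rcases he with rfl | rfl <;> simp <;> linarith [ht.1, ht.2]
      · rcases he with rfl | rfl <;> simp <;> linarith [ht.1, ht.2]
  rcases le_or_gt |ξ.re| (a1 / 2) with hx | hx
  · exact (k1 ξ hx (by linarith [h2.1]) (by linarith [h2.2])).trans (min_le_left _ _)
  rcases le_or_gt 0 ξ.re with h0 | h0
  · rw [abs_of_nonneg h0] at hx
    have := k2 (-1) (Or.inr rfl) (I * ξ + (577 / 1000 : ℝ)) ?_ ?_ ?_
    · rwa [show ((577 / 1000 : ℝ) : ℂ) * I + ((-1 : ℝ) : ℂ) * I * (I * ξ + (577 / 1000 : ℝ)) = ξ by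
        push_cast; linear_combination (-ξ) * Complex.I_mul_I] at this
    · rw [abs_le]; constructor <;> simp <;> linarith [h2.1, h2.2]
    · simp; linarith
    · simp; linarith [h1.2]
  · rw [abs_of_neg h0] at hx
    have := k2 1 (Or.inl rfl) (-(I * ξ) - (577 / 1000 : ℝ)) ?_ ?_ ?_
    · rwa [show ((577 / 1000 : ℝ) : ℂ) * I + ((1 : ℝ) : ℂ) * I * (-(I * ξ) - (577 / 1000 : ℝ)) = ξ by
        push_cast; linear_combination (-ξ) * Complex.I_mul_I] at this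
    · rw [abs_le]; constructor <;> simp <;> linarith [h2.1, h2.2]
    · simp; linarith
    · simp; linarith [h1.1]

theorem link3 (B : BASIC) (T : H58.TC) : LINK3 := by
  intro τ K hτ hK
  suffices h : ∀ η : ℝ, 0 < η → ∃ β : ℝ, 0 < β ∧
      ∀ (σ : ℝ) (w : ℂ) (A : ℤ) (a b c : ℂ) (g μ : ℂ → ℂ) (c0 : ℂ), 0 < σ →
      σ ≤ β → Tri τ w A a b c → Wh K σ g μ (H58.hull a b c) →
      (∀ u ∈ ball (w + τ * actr) (τ / 200), ‖g u - c0‖ ≤ β) → ‖g ((a + b) / 2) - c0‖ ≤ η by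
    choose! βf h1 h2 using h
    exact ⟨βf, h1, h2⟩
  intro η hη
  obtain ⟨L, hL, hL0⟩ : ∃ L : ℝ, L = 2 * (K + (K + 1)) ∧ 0 < L := ⟨_, rfl, by positivity⟩
  obtain ⟨ρ, p1, p2, p3⟩ : ∃ ρ : ℝ, 0 < ρ ∧ ρ ≤ 1 / 4 ∧ L * ρ ≤ η / 8 :=
    ⟨min (1 / 4) (η / 8 / L), lt_min (by norm_num) (by positivity), min_le_left _ _,
      (le_div_iff₀' hL0).1 (min_le_right _ _)⟩
  obtain ⟨δ, hδ, H⟩ := tcq T (a := 1 / 1000) (b := 577 / 1000) (y1 := 577 / 1000 - ρ)
    (y2 := 577 / 1000 - ρ) (K := L) (η := η / 2) (by norm_num) (by linarith) le_rfl (by linarith)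
    hL0 (by positivity)
  refine ⟨min δ ρ, lt_min hδ p1, ?_⟩
  intro σ w A a b c g μ c0 hσ hs T1 W hb
  have s1 : σ ≤ δ := hs.trans (min_le_left _ _)
  have s2 : σ ≤ ρ := hs.trans (min_le_right _ _)
  have hc0 : ‖c0‖ ≤ K + 1 := by
    have m1 : w + τ * actr ∈ H58.hull a b c := hull B τ w A a b c T1 (mem_ball_self (by positivity))
    have m2 := (hb _ (mem_ball_self (by positivity))).trans (min_le_right _ _)
    have m3 := norm_sub_le (g (w + τ * actr)) (g (w + τ * actr) - c0)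
    rw [sub_sub_cancel] at m3
    linarith [W.bg _ m1]
  have W3 := wh_aff (R := TT) (wh_const W hσ.le hc0) (by positivity) hσ.le (hnorm B T1)
    (sub_hull B T1)
  rw [← hL] at W3
  have k1 := H σ _ _ TT (((577 / 1000 : ℝ) : ℂ) * I) (-1) hσ.le s1 (by norm_num) W3
    (fun z z1 z2 z3 => by
      refine ⟨?_, ?_⟩ <;> simp <;> linarith)
    (fun t ht => (hb _ (back B T1 ht)).trans (min_le_left _ _))
    (((577 / 1000 - ρ : ℝ) : ℂ) * I) (by simp; norm_num) (by simp) (by simp)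
  have e : ((577 / 1000 : ℝ) : ℂ) * I + -1 * (((577 / 1000 - ρ : ℝ) : ℂ) * I) = ρ * I := by
    push_cast; ring
  rw [e] at k1
  have n1 : ‖(0 : ℂ) - ρ * I‖ = ρ := by
    rw [zero_sub, norm_neg, norm_mul, Complex.norm_I, Complex.norm_real, Real.norm_eq_abs,
      abs_of_pos p1, mul_one]
  have k2 := wh_lip W3 hL0.le hσ.le (x := ρ * I) (y := 0)
    ⟨by simp; linarith, by simp; linarith⟩ ⟨by simp, by simp⟩ (by rw [n1]; linarith)
  rw [n1, mul_zero, add_zero] at k2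
  have k3 : L * σ ≤ L * ρ := mul_le_mul_of_nonneg_left s2 hL0.le
  linarith

theorem link : H58.R_LINK := fun B T => ⟨link1 B T, link2 B T, link3 B T⟩

end

end Pool.Agent.MP_d32a63_an.H15
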